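import Mathlib

/-! The algebraic part. -/

set_option autoImplicit false

namespace Pool.Agent.Q320.WC

open Polynomial ComplexConjugate

section
variable (p0 p1 p2 p3 q0 q1 q2 q3 : ℂ)

/-- `p0 + p1 x + (p2 + p3 x) u` as a polynomial in `u` -/
noncomputable def bi (p0 p1 p2 p3 x : ℂ) : ℂ[X] := C (p0 + p1 * x) + C (p2 + p3 * x) * X

lemma eval_bi (p0 p1 p2 p3 x u : ℂ) : (bi p0 p1 p2 p3 x).eval u =
    p0 + p1 * x + p2 * u + p3 * x * u := by
  unfold bi; simp; ring

end

lemma poly_zero {T : Set ℂ} (hT : T.Infinite) {P : ℂ[X]} (h : ∀ y ∈ T, P.eval (conj y) = 0) :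
    P = 0 := by
  have hT' : ((fun y : ℂ => conj y) '' T).Infinite := by
    refine hT.image ?_
    intro x _ y _ hxy
    exact (starRingEnd ℂ).injective hxy
  refine Polynomial.eq_zero_of_infinite_isRoot P (hT'.mono ?_)
  rintro _ ⟨y, hy, rfl⟩
  exact h y hy

lemma key {p0 p1 p2 p3 q0 q1 q2 q3 : ℂ} (hq : q0 * q3 - q1 * q2 ≠ 0) {T : Set ℂ}
    (hT : T.Infinite) {f g : ℂ → ℂ} (hf : ∀ x ∈ T, f x ≠ 0)
    (h : ∀ x ∈ T, ∀ y ∈ T, (p0 + p1 * x + p2 * conj y + p3 * x * conj y) * f x * conj (f y) =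
      (q0 + q1 * x + q2 * conj y + q3 * x * conj y) * (conj (g x) + g y))
    {x0 x1 x2 : ℂ} (h0 : x0 ∈ T) (h1 : x1 ∈ T) (h2 : x2 ∈ T) (h01 : x0 ≠ x1) (h02 : x0 ≠ x2)
    (h12 : x1 ≠ x2)
    (m1 : (p0 + p1 * x1) * (q2 + q3 * x1) - (p2 + p3 * x1) * (q0 + q1 * x1) ≠ 0)
    (m2 : (p0 + p1 * x2) * (q2 + q3 * x2) - (p2 + p3 * x2) * (q0 + q1 * x2) ≠ 0)
    (r1 : q2 + q3 * x1 ≠ 0) (r2 : q2 + q3 * x2 ≠ 0) : False := by
  have hstar : ∀ x ∈ T, ∀ x' ∈ T, ∀ y ∈ T,
      (f x * (bi p0 p1 p2 p3 x).eval (conj y) * (bi q0 q1 q2 q3 x').eval (conj y) -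
        f x' * (bi p0 p1 p2 p3 x').eval (conj y) * (bi q0 q1 q2 q3 x).eval (conj y)) *
        conj (f y) = (bi q0 q1 q2 q3 x).eval (conj y) * (bi q0 q1 q2 q3 x').eval (conj y) *
          (conj (g x) - conj (g x')) := by
    intro x hx x' hx' y hy
    have e1 := h x hx y hy
    have e2 := h x' hx' y hy
    rw [eval_bi, eval_bi, eval_bi, eval_bi]
    linear_combination (q0 + q1 * x' + q2 * conj y + q3 * x' * conj y) * e1 -
      (q0 + q1 * x + q2 * conj y + q3 * x * conj y) * e2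
  have hfy : ∀ y ∈ T, conj (f y) ≠ 0 := fun y hy => by
    rw [Ne, map_eq_zero]; exact hf y hy
  set A := bi p0 p1 p2 p3 with hA
  set B := bi q0 q1 q2 q3 with hB
  -- roots
  have hroot : ∀ x, q2 + q3 * x ≠ 0 → (B x).eval (-(q0 + q1 * x) / (q2 + q3 * x)) = 0 := by
    intro x hx
    rw [hB, eval_bi]
    have h5 : (-(q0 + q1 * x) / (q2 + q3 * x)) * (q2 + q3 * x) = -(q0 + q1 * x) :=
      div_mul_cancel₀ _ hx
    linear_combination h5
  have hA0 : ∀ x, q2 + q3 * x ≠ 0 →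
      (p0 + p1 * x) * (q2 + q3 * x) - (p2 + p3 * x) * (q0 + q1 * x) ≠ 0 →
      (A x).eval (-(q0 + q1 * x) / (q2 + q3 * x)) ≠ 0 := by
    intro x hx hm h3
    apply hm
    rw [hA, eval_bi] at h3
    have h4 : (p0 + p1 * x + p2 * (-(q0 + q1 * x) / (q2 + q3 * x)) +
      p3 * x * (-(q0 + q1 * x) / (q2 + q3 * x))) * (q2 + q3 * x) = 0 := by rw [h3, zero_mul]
    have h5 : (-(q0 + q1 * x) / (q2 + q3 * x)) * (q2 + q3 * x) = -(q0 + q1 * x) :=
      div_mul_cancel₀ _ hx
    linear_combination h4 - (p2 + p3 * x) * h5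
  have hB0 : ∀ x x', q2 + q3 * x ≠ 0 → x ≠ x' →
      (B x').eval (-(q0 + q1 * x) / (q2 + q3 * x)) ≠ 0 := by
    intro x x' hx hxx h3
    rw [hB, eval_bi] at h3
    have h4 : (q0 + q1 * x' + q2 * (-(q0 + q1 * x) / (q2 + q3 * x)) +
      q3 * x' * (-(q0 + q1 * x) / (q2 + q3 * x))) * (q2 + q3 * x) = 0 := by rw [h3, zero_mul]
    have h5 : (-(q0 + q1 * x) / (q2 + q3 * x)) * (q2 + q3 * x) = -(q0 + q1 * x) :=
      div_mul_cancel₀ _ hx
    have h6 : (x - x') * (q0 * q3 - q1 * q2) = 0 := by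
      linear_combination h4 - (q2 + q3 * x') * h5
    rcases mul_eq_zero.mp h6 with h7 | h7
    · exact hxx (sub_eq_zero.mp h7)
    · exact hq h7
  set k01 := conj (g x0) - conj (g x1) with hk01
  set k02 := conj (g x0) - conj (g x2) with hk02
  have hP : C k02 * (C (f x0) * A x0 * B x1 - C (f x1) * A x1 * B x0) * B x2 -
      C k01 * (C (f x0) * A x0 * B x2 - C (f x2) * A x2 * B x0) * B x1 = 0 := by
    refine poly_zero hT fun y hy => ?_
    have e1 := hstar x0 h0 x1 h1 y hy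
    have e2 := hstar x0 h0 x2 h2 y hy
    apply mul_right_cancel₀ (hfy y hy)
    simp only [eval_sub, eval_mul, eval_C]
    linear_combination k02 * (B x2).eval (conj y) * e1 - k01 * (B x1).eval (conj y) * e2
  set u1 := -(q0 + q1 * x1) / (q2 + q3 * x1) with hu1
  set u2 := -(q0 + q1 * x2) / (q2 + q3 * x2) with hu2
  have hk02' : k02 = 0 := by
    have h3 := congrArg (Polynomial.eval u1) hP
    simp only [eval_sub, eval_mul, eval_C, eval_zero] at h3
    rw [hroot x1 r1] at h3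
    have h4 : k02 * (f x1 * (A x1).eval u1 * (B x0).eval u1 * (B x2).eval u1) = 0 := by
      linear_combination -h3
    refine (mul_eq_zero.mp h4).resolve_right ?_
    exact mul_ne_zero (mul_ne_zero (mul_ne_zero (hf x1 h1) (hA0 x1 r1 m1))
      (hB0 x1 x0 r1 h01.symm)) (hB0 x1 x2 r1 h12)
  have hk01' : k01 = 0 := by
    have h3 := congrArg (Polynomial.eval u2) hP
    simp only [eval_sub, eval_mul, eval_C, eval_zero] at h3
    rw [hroot x2 r2] at h3
    have h4 : k01 * (f x2 * (A x2).eval u2 * (B x0).eval u2 * (B x1).eval u2) = 0 := by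
      linear_combination h3
    refine (mul_eq_zero.mp h4).resolve_right ?_
    exact mul_ne_zero (mul_ne_zero (mul_ne_zero (hf x2 h2) (hA0 x2 r2 m2))
      (hB0 x2 x0 r2 h02.symm)) (hB0 x2 x1 r2 h12.symm)
  have hQ : C (f x0) * A x0 * B x1 - C (f x1) * A x1 * B x0 = 0 := by
    refine poly_zero hT fun y hy => ?_
    have e1 := hstar x0 h0 x1 h1 y hy
    apply mul_right_cancel₀ (hfy y hy)
    simp only [eval_sub, eval_mul, eval_C]
    rw [← hk01, hk01', mul_zero] at e1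
    rw [e1, zero_mul]
  have h3 := congrArg (Polynomial.eval u1) hQ
  simp only [eval_sub, eval_mul, eval_C, eval_zero] at h3
  rw [hroot x1 r1, mul_zero, zero_sub, neg_eq_zero] at h3
  exact mul_ne_zero (mul_ne_zero (hf x1 h1) (hA0 x1 r1 m1)) (hB0 x1 x0 r1 h01.symm) h3

lemma minors {p0 p1 p2 p3 q0 q1 q2 q3 : ℂ} (hq : q0 * q3 - q1 * q2 ≠ 0) {T : Set ℂ}
    (hT : T.Infinite) {f g : ℂ → ℂ} (hf : ∀ x ∈ T, f x ≠ 0)
    (h : ∀ x ∈ T, ∀ y ∈ T, (p0 + p1 * x + p2 * conj y + p3 * x * conj y) * f x * conj (f y) =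
      (q0 + q1 * x + q2 * conj y + q3 * x * conj y) * (conj (g x) + g y)) :
    p0 * q2 - p2 * q0 = 0 ∧ p0 * q3 + p1 * q2 - p2 * q1 - p3 * q0 = 0 ∧
      p1 * q3 - p3 * q1 = 0 := by
  set P : ℂ[X] := C (p0 * q2 - p2 * q0) + C (p0 * q3 + p1 * q2 - p2 * q1 - p3 * q0) * X +
    C (p1 * q3 - p3 * q1) * X ^ 2 with hP
  have hev : ∀ x, P.eval x = (p0 + p1 * x) * (q2 + q3 * x) - (p2 + p3 * x) * (q0 + q1 * x) := by
    intro x
    rw [hP]
    simp only [eval_add, eval_mul, eval_C, eval_X, eval_pow]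
    ring
  by_cases hP0 : P = 0
  · have v0 := hev 0
    have v1 := hev 1
    have v2 := hev (-1)
    rw [hP0, eval_zero] at v0 v1 v2
    refine ⟨?_, ?_, ?_⟩
    · linear_combination -v0
    · linear_combination (1 / 2) * v2 - (1 / 2) * v1
    · linear_combination v0 - (1 / 2) * v2 - (1 / 2) * v1
  · exfalso
    set R : ℂ[X] := C q2 + C q3 * X with hR
    have hR0 : R ≠ 0 := by
      intro h0
      have e0 : q2 = 0 := by
        have := congrArg (fun Q => Q.coeff 0) h0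
        simpa [hR] using this
      have e1 : q3 = 0 := by
        have := congrArg (fun Q => Q.coeff 1) h0
        simpa [hR, coeff_X, coeff_C] using this
      apply hq
      rw [e0, e1]; ring
    have hfin : ({x | P.IsRoot x} ∪ {x | R.IsRoot x}).Finite := by
      refine Set.Finite.union ?_ ?_
      · by_contra hinf
        exact hP0 (Polynomial.eq_zero_of_infinite_isRoot P hinf)
      · by_contra hinf
        exact hR0 (Polynomial.eq_zero_of_infinite_isRoot R hinf)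
    have hT' : (T \ ({x | P.IsRoot x} ∪ {x | R.IsRoot x})).Infinite := hT.sdiff hfin
    obtain ⟨t, ht, htc⟩ := hT'.exists_subset_card_eq 3
    obtain ⟨x0, x1, x2, h01, h02, h12, rfl⟩ := Finset.card_eq_three.mp htc
    have g0 := ht (a := x0) (by simp)
    have g1 := ht (a := x1) (by simp)
    have g2 := ht (a := x2) (by simp)
    have hm : ∀ x, x ∈ T \ ({x | P.IsRoot x} ∪ {x | R.IsRoot x}) →
        (p0 + p1 * x) * (q2 + q3 * x) - (p2 + p3 * x) * (q0 + q1 * x) ≠ 0 := by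
      intro x hx h3
      apply hx.2
      left
      show P.eval x = 0
      rw [hev, h3]
    have hr : ∀ x, x ∈ T \ ({x | P.IsRoot x} ∪ {x | R.IsRoot x}) → q2 + q3 * x ≠ 0 := by
      intro x hx h3
      apply hx.2
      right
      show R.eval x = 0
      rw [hR]
      simpa using h3
    exact key hq hT hf h g0.1 g1.1 g2.1 h01 h02 h12 (hm _ g1) (hm _ g2) (hr _ g1) (hr _ g2)

/-- proportional hermitian forms -/
lemma propor {p0 p1 p2 p3 q0 q1 q2 q3 : ℂ} (hq : q0 * q3 - q1 * q2 ≠ 0)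
    (hp : p0 * p3 - p1 * p2 ≠ 0)
    (e1 : p0 * q2 - p2 * q0 = 0) (e2 : p0 * q3 + p1 * q2 - p2 * q1 - p3 * q0 = 0)
    (e3 : p1 * q3 - p3 * q1 = 0)
    (c0 : conj p0 = p0) (c1 : conj p1 = p2) (c3 : conj p3 = p3)
    (d0 : conj q0 = q0) (d1 : conj q1 = q2) (d3 : conj q3 = q3) :
    ∃ κ : ℂ, κ ≠ 0 ∧ p0 = κ * q0 ∧ p1 = κ * q1 ∧ p2 = κ * q2 ∧ p3 = κ * q3 := by
  have c2 : conj p2 = p1 := by rw [← c1, Complex.conj_conj]
  have d2 : conj q2 = q1 := by rw [← d1, Complex.conj_conj]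
  have f1 : p0 * q1 - p1 * q0 = 0 := by
    have := congrArg conj e1
    simpa [c0, c1, c2, c3, d0, d1, d2, d3] using this
  have f2 : p0 * q3 + p2 * q1 - p1 * q2 - p3 * q0 = 0 := by
    have := congrArg conj e2
    simpa [c0, c1, c2, c3, d0, d1, d2, d3] using this
  have f3 : p2 * q3 - p3 * q2 = 0 := by
    have := congrArg conj e3
    simpa [c0, c1, c2, c3, d0, d1, d2, d3] using this
  have f4 : p0 * q3 - p3 * q0 = 0 := by linear_combination (1 / 2) * e2 + (1 / 2) * f2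
  have f5 : p1 * q2 - p2 * q1 = 0 := by linear_combination (1 / 2) * e2 - (1 / 2) * f2
  by_cases h0 : q0 = 0
  · have h1 : q1 ≠ 0 := by
      rintro rfl
      apply hq; rw [h0]; ring
    refine ⟨p1 / q1, ?_, ?_, ?_, ?_, ?_⟩
    · intro h
      rw [div_eq_zero_iff] at h
      rcases h with h | h
      · apply hp
        have : p0 = 0 := by
          have : p0 * q1 = 0 := by linear_combination f1 + q0 * h
          exact (mul_eq_zero.mp this).resolve_right h1
        rw [this, h]; ring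
      · exact h1 h
    · field_simp; linear_combination f1
    · field_simp
    · field_simp; linear_combination -f5
    · field_simp; linear_combination -e3
  · refine ⟨p0 / q0, ?_, ?_, ?_, ?_, ?_⟩
    · intro h
      rw [div_eq_zero_iff] at h
      rcases h with h | h
      · apply hp
        have : p1 = 0 := by
          have : p1 * q0 = 0 := by linear_combination -f1 + q1 * h
          exact (mul_eq_zero.mp this).resolve_right h0
        rw [this, h]; ring
      · exact h0 h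
    · field_simp
    · field_simp; linear_combination -f1
    · field_simp; linear_combination -e1
    · field_simp; linear_combination -f4

end Pool.Agent.Q320.WC
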