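import Mathlib

/-! The Hardy space as `ℓ²`, reproducing kernels, the shift. -/

set_option autoImplicit false

namespace Pool.Agent.Q320.WC

open Filter Topology ComplexConjugate
open scoped ENNReal

/-- The Hardy space `H²`: the square summable sequences of Taylor coefficients. -/
abbrev H2 : Type := lp (fun _ : ℕ => ℂ) 2

/-- The value at `z` of the function with the Taylor coefficients `f`. -/
noncomputable def ev (f : H2) (z : ℂ) : ℂ := ∑' n : ℕ, f n * z ^ n

/-- The reproducing kernel `K_w(z) = 1 / (1 - w̄ z)`. -/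
noncomputable def ker (w : ℂ) (hw : ‖w‖ < 1) : H2 :=
  ⟨fun n => (conj w) ^ n, by
    show Memℓp (fun n : ℕ => (conj w) ^ n) 2
    rw [memℓp_gen_iff (by norm_num)]
    have h : Summable fun n : ℕ => (‖w‖ ^ 2) ^ n :=
      summable_geometric_of_lt_one (by positivity) (by nlinarith [norm_nonneg w])
    refine h.congr fun n => ?_
    rw [norm_pow, RCLike.norm_conj]
    simp only [ENNReal.toReal_ofNat, Real.rpow_ofNat]
    rw [← pow_mul, ← pow_mul, mul_comm]⟩

/-- the shift of a sequence -/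
def sh (f : ℕ → ℂ) : ℕ → ℂ
  | 0 => 0
  | m + 1 => f m

lemma memℓp_sh (f : H2) : Memℓp (sh f) 2 := by
  have h : Memℓp (fun n : ℕ => f n) 2 := lp.memℓp f
  rw [memℓp_gen_iff (by norm_num)] at h ⊢
  rw [← summable_nat_add_iff 1]
  exact h

/-- multiplication by `z` -/
noncomputable def S (f : H2) : H2 := ⟨sh f, memℓp_sh f⟩

lemma ker_apply (w : ℂ) (hw : ‖w‖ < 1) (n : ℕ) : ker w hw n = (conj w) ^ n := rfl
lemma S_zero (f : H2) : S f 0 = 0 := rfl
lemma S_succ (f : H2) (n : ℕ) : S f (n + 1) = f n := rfl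

lemma inner_ker (w : ℂ) (hw : ‖w‖ < 1) (f : H2) : inner ℂ (ker w hw) f = ev f w := by
  rw [lp.inner_eq_tsum]
  unfold ev
  congr 1
  ext n
  rw [ker_apply, RCLike.inner_apply, map_pow, Complex.conj_conj]

lemma hasSum_ev (f : H2) {z : ℂ} (hz : ‖z‖ < 1) : HasSum (fun n : ℕ => f n * z ^ n) (ev f z) := by
  have h := lp.summable_inner (𝕜 := ℂ) (ker z hz) f
  have h2 : Summable fun n : ℕ => f n * z ^ n := by
    refine h.congr fun n => ?_
    rw [ker_apply, RCLike.inner_apply, map_pow, Complex.conj_conj]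
  exact h2.hasSum

lemma ev_ker {w z : ℂ} (hw : ‖w‖ < 1) (hz : ‖z‖ < 1) : ev (ker w hw) z = (1 - conj w * z)⁻¹ := by
  unfold ev
  simp only [ker_apply, ← mul_pow]
  apply tsum_geometric_of_norm_lt_one
  rw [norm_mul, RCLike.norm_conj]
  nlinarith [norm_nonneg w, norm_nonneg z]

lemma ev_S (f : H2) {z : ℂ} (hz : ‖z‖ < 1) : ev (S f) z = z * ev f z := by
  unfold ev
  rw [(hasSum_ev (S f) hz).summable.tsum_eq_zero_add, S_zero, zero_mul, zero_add, ← tsum_mul_left]
  congr 1
  ext n
  rw [S_succ]; ring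

lemma inner_S (f g : H2) : inner ℂ (S f) (S g) = inner ℂ f g := by
  rw [lp.inner_eq_tsum, lp.inner_eq_tsum,
    (lp.summable_inner (𝕜 := ℂ) (S f) (S g)).tsum_eq_zero_add]
  simp only [S_zero, S_succ, inner_zero_left, zero_add]

lemma ev_add (f g : H2) {z : ℂ} (hz : ‖z‖ < 1) : ev (f + g) z = ev f z + ev g z := by
  rw [← inner_ker z hz, ← inner_ker z hz, ← inner_ker z hz, inner_add_right]

lemma ev_sub (f g : H2) {z : ℂ} (hz : ‖z‖ < 1) : ev (f - g) z = ev f z - ev g z := by
  rw [← inner_ker z hz, ← inner_ker z hz, ← inner_ker z hz, inner_sub_right]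

lemma ev_smul (a : ℂ) (f : H2) {z : ℂ} (hz : ‖z‖ < 1) : ev (a • f) z = a * ev f z := by
  rw [← inner_ker z hz, ← inner_ker z hz, inner_smul_right]

lemma ev_fps (f : H2) :
    HasFPowerSeriesOnBall (ev f) (FormalMultilinearSeries.ofScalars ℂ (fun n => f n)) 0 1 := by
  refine ⟨?_, one_pos, fun {y} hy => ?_⟩
  · have h := FormalMultilinearSeries.le_radius_of_bound
      (FormalMultilinearSeries.ofScalars ℂ (fun n => f n)) (r := 1) ‖f‖ (fun n => by
        rw [FormalMultilinearSeries.ofScalars_norm]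
        simp only [NNReal.coe_one, one_pow, mul_one]
        exact lp.norm_apply_le_norm (by norm_num) f n)
    simpa using h
  · have hy1 : ‖y‖ₑ < 1 := by simpa using hy
    have hy' : ‖y‖ < 1 := by
      rwa [← ENNReal.ofReal_one, ← ofReal_norm, ENNReal.ofReal_lt_ofReal_iff one_pos] at hy1
    rw [zero_add]
    have h := hasSum_ev f hy'
    have e : (fun n : ℕ => (FormalMultilinearSeries.ofScalars ℂ (fun n => f n) n) fun _ => y) =
        fun n : ℕ => f n * y ^ n := by
      funext n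
      rw [FormalMultilinearSeries.ofScalars_apply_eq, smul_eq_mul]
    rw [e]
    exact h

lemma ev_injective {f g : H2} (h : ∀ z : ℂ, ‖z‖ < 1 → ev f z = ev g z) : f = g := by
  have h1 := (ev_fps f).hasFPowerSeriesAt
  have h2 := (ev_fps g).hasFPowerSeriesAt
  have h3 : ev f =ᶠ[𝓝 0] ev g := by
    filter_upwards [Metric.ball_mem_nhds (0 : ℂ) one_pos] with z hz
    exact h z (by simpa using hz)
  have h4 := (h1.congr h3).eq_formalMultilinearSeries h2
  rw [FormalMultilinearSeries.ofScalars_series_eq_iff] at h4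
  ext n
  exact congrFun h4 n

lemma ev_continuousAt (f : H2) {z : ℂ} (hz : ‖z‖ < 1) : ContinuousAt (ev f) z := by
  have h := (ev_fps f).continuousOn
  refine h.continuousAt ?_
  have : Metric.eball (0 : ℂ) 1 = Metric.ball (0 : ℂ) 1 := by
    have := Metric.eball_ofReal (x := (0 : ℂ)) (ε := (1 : ℝ))
    simpa using this
  rw [this]
  exact Metric.isOpen_ball.mem_nhds (by simpa using hz)

end Pool.Agent.Q320.WC
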