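import Pool.Agent.Q320.WC.Basic
import Pool.Agent.Q320.WC.Alg

/-! Normal weighted composition operators with a linear fractional composition symbol. -/

set_option autoImplicit false

namespace Pool.Agent.Q320.WC

open ComplexConjugate Topology

/-- the kernel, extended by `0` -/
noncomputable def kr (w : ℂ) : H2 := if h : ‖w‖ < 1 then ker w h else 0

lemma inner_kr {w : ℂ} (hw : ‖w‖ < 1) (f : H2) : inner ℂ (kr w) f = ev f w := by
  rw [kr, dif_pos hw, inner_ker]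

lemma ev_kr {w z : ℂ} (hw : ‖w‖ < 1) (hz : ‖z‖ < 1) : ev (kr w) z = (1 - conj w * z)⁻¹ := by
  rw [kr, dif_pos hw, ev_ker hw hz]

section
variable {φ ψ : ℂ → ℂ} {W : H2 →L[ℂ] H2}

lemma adj_kr (hφ : ∀ z : ℂ, ‖z‖ < 1 → ‖φ z‖ < 1)
    (hW : ∀ (f : H2) (z : ℂ), ‖z‖ < 1 → ev (W f) z = ψ z * ev f (φ z)) {w : ℂ} (hw : ‖w‖ < 1) :
    ContinuousLinearMap.adjoint W (kr w) = (conj (ψ w)) • kr (φ w) := by
  refine ext_inner_right ℂ fun f => ?_
  rw [ContinuousLinearMap.adjoint_inner_left, inner_kr hw, hW f w hw, inner_smul_left,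
    Complex.conj_conj, inner_kr (hφ w hw)]

lemma inner_W (hφ : ∀ z : ℂ, ‖z‖ < 1 → ‖φ z‖ < 1)
    (hW : ∀ (f : H2) (z : ℂ), ‖z‖ < 1 → ev (W f) z = ψ z * ev f (φ z))
    (hN : W * ContinuousLinearMap.adjoint W = ContinuousLinearMap.adjoint W * W)
    {w z : ℂ} (hw : ‖w‖ < 1) (hz : ‖z‖ < 1) :
    inner ℂ (W (kr w)) (W (kr z)) = ψ w * conj (ψ z) * (1 - conj (φ z) * φ w)⁻¹ := by
  have h1 : ContinuousLinearMap.adjoint W (W (kr z)) = W (ContinuousLinearMap.adjoint W (kr z)) := by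
    have := congrArg (fun T : H2 →L[ℂ] H2 => T (kr z)) hN
    exact this.symm
  rw [← ContinuousLinearMap.adjoint_inner_right, h1, inner_kr hw, hW _ w hw, adj_kr hφ hW hz,
    ev_smul _ _ (hφ w hw), ev_kr (hφ z hz) (hφ w hw)]
  ring

end

/-- The main theorem. -/
theorem main {a b c d : ℂ} (hdet : a * d - b * c ≠ 0)
    (hden : ∀ z : ℂ, ‖z‖ < 1 → c * z + d ≠ 0)
    (hself : ∀ z : ℂ, ‖z‖ < 1 → ‖(a * z + b) / (c * z + d)‖ < 1)
    {ψ : ℂ → ℂ} {W : H2 →L[ℂ] H2}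
    (hW : ∀ (f : H2) (z : ℂ), ‖z‖ < 1 → ev (W f) z = ψ z * ev f ((a * z + b) / (c * z + d)))
    (hN : W * ContinuousLinearMap.adjoint W = ContinuousLinearMap.adjoint W * W) :
    ∃ κ : ℂ, ∀ z : ℂ, ‖z‖ < 1 → ψ z = κ / (c * z + d) := by
  have h0 : ‖(0 : ℂ)‖ < 1 := by simp
  set φ : ℂ → ℂ := fun z => (a * z + b) / (c * z + d) with hφd
  have hφ : ∀ z : ℂ, ‖z‖ < 1 → ‖φ z‖ < 1 := hself
  have hW' : ∀ (f : H2) (z : ℂ), ‖z‖ < 1 → ev (W f) z = ψ z * ev f (φ z) := hW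
  have hφm : ∀ z : ℂ, ‖z‖ < 1 → φ z * (c * z + d) = a * z + b := fun z hz =>
    div_mul_cancel₀ _ (hden z hz)
  -- `|b| < |d|`
  have hd : d ≠ 0 := by simpa using hden 0 h0
  have hbd : ‖b‖ < ‖d‖ := by
    have h1 := hself 0 h0
    simp only [mul_zero, zero_add, norm_div] at h1
    rwa [div_lt_one (norm_pos_iff.mpr hd)] at h1
  set D : ℂ → ℂ := fun w => d - conj w * b with hD
  have hDne : ∀ w : ℂ, ‖w‖ < 1 → D w ≠ 0 := by
    intro w hw h1
    have h2 : d = conj w * b := sub_eq_zero.mp h1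
    have h3 : ‖d‖ = ‖w‖ * ‖b‖ := by
      conv_lhs => rw [h2]
      rw [norm_mul, RCLike.norm_conj]
    nlinarith [norm_nonneg w, norm_nonneg b]
  set s : ℂ → ℂ := fun w => (conj w * a - c) / D w with hs
  have hsD : ∀ w : ℂ, ‖w‖ < 1 → s w * D w = conj w * a - c := fun w hw =>
    div_mul_cancel₀ _ (hDne w hw)
  have hker : ∀ w z : ℂ, ‖w‖ < 1 → ‖z‖ < 1 → 1 - conj w * z ≠ 0 := by
    intro w z hw hz h1
    have h2 : (1 : ℂ) = conj w * z := sub_eq_zero.mp h1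
    have h3 : (1 : ℝ) = ‖w‖ * ‖z‖ := by
      rw [← RCLike.norm_conj w, ← norm_mul, ← h2, norm_one]
    nlinarith [norm_nonneg w, norm_nonneg z]
  obtain ⟨F, hF⟩ : ∃ F : ℂ → H2, ∀ w, F w = D w • W (kr w) := ⟨fun w => D w • W (kr w), fun _ => rfl⟩
  obtain ⟨Ψ, hΨ⟩ : ∃ Ψ : H2, Ψ = c • S (W (kr 0)) + d • W (kr 0) := ⟨_, rfl⟩
  have hev0 : ∀ z : ℂ, ‖z‖ < 1 → ev (W (kr 0)) z = ψ z := by
    intro z hz
    rw [hW' _ z hz, ev_kr h0 (hφ z hz)]
    simp
  have hevΨ : ∀ z : ℂ, ‖z‖ < 1 → ev Ψ z = (c * z + d) * ψ z := by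
    intro z hz
    rw [hΨ, ev_add _ _ hz, ev_smul _ _ hz, ev_smul _ _ hz, ev_S _ hz, hev0 z hz]
    ring
  have hevF : ∀ w z : ℂ, ‖w‖ < 1 → ‖z‖ < 1 →
      ev (F w) z = D w * (ψ z * (1 - conj w * φ z)⁻¹) := by
    intro w z hw hz
    rw [hF, ev_smul _ _ hz, hW' _ z hz, ev_kr hw (hφ z hz)]
  have hFeq : ∀ w : ℂ, ‖w‖ < 1 → F w = Ψ + s w • S (F w) := by
    intro w hw
    refine ev_injective fun z hz => ?_
    rw [ev_add _ _ hz, ev_smul _ _ hz, ev_S _ hz, hevΨ z hz, hevF w z hw hz]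
    have h1 := hker w (φ z) hw (hφ z hz)
    have h2 := mul_inv_cancel₀ h1
    set i := (1 - conj w * φ z)⁻¹ with hi
    have h3 := hφm z hz
    have h4 := hsD w hw
    have h5 : D w = d - conj w * b := rfl
    clear_value i D s φ
    linear_combination ((c * z + d) * ψ z) * h2 + (ψ z * i * conj w) * h3 -
      (z * ψ z * i) * h4 + (ψ z * i) * h5
  set Cf : ℂ → ℂ := fun z => (1 / 2 : ℂ) * inner ℂ Ψ Ψ + s z * inner ℂ Ψ (S (F z)) with hCf
  have hCc : ∀ w : ℂ, conj (Cf w) = (1 / 2 : ℂ) * inner ℂ Ψ Ψ + conj (s w) * inner ℂ (S (F w)) Ψ := by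
    intro w
    rw [hCf]
    simp only [map_add, map_mul, inner_conj_symm, map_div₀, map_one, map_ofNat]
  have hmain : ∀ w z : ℂ, ‖w‖ < 1 → ‖z‖ < 1 →
      (1 - conj (s w) * s z) * inner ℂ (F w) (F z) = conj (Cf w) + Cf z := by
    intro w z hw hz
    have h1 : inner ℂ (F w) (F z) = inner ℂ (Ψ + s w • S (F w)) (Ψ + s z • S (F z)) := by
      rw [← hFeq w hw, ← hFeq z hz]
    rw [inner_add_left, inner_add_right, inner_add_right, inner_smul_left, inner_smul_left,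
      inner_smul_right, inner_smul_right, inner_S] at h1
    rw [hCc w]
    have h2 : Cf z = (1 / 2 : ℂ) * inner ℂ Ψ Ψ + s z * inner ℂ Ψ (S (F z)) := rfl
    rw [h2]
    linear_combination h1
  have hFF : ∀ w z : ℂ, ‖w‖ < 1 → ‖z‖ < 1 → inner ℂ (F w) (F z) =
      conj (D w) * D z * (ψ w * conj (ψ z) * (1 - conj (φ z) * φ w)⁻¹) := by
    intro w z hw hz
    rw [hF, hF, inner_smul_left, inner_smul_right, inner_W hφ hW' hN hw hz]
    ring
  set f : ℂ → ℂ := fun x => (c * x + d) * ψ x with hf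
  obtain ⟨p0, hp0⟩ : ∃ p0 : ℂ, p0 = d * conj d - c * conj c := ⟨_, rfl⟩
  obtain ⟨p1, hp1⟩ : ∃ p1 : ℂ, p1 = conj a * c - conj b * d := ⟨_, rfl⟩
  obtain ⟨p2, hp2⟩ : ∃ p2 : ℂ, p2 = a * conj c - b * conj d := ⟨_, rfl⟩
  obtain ⟨p3, hp3⟩ : ∃ p3 : ℂ, p3 = b * conj b - a * conj a := ⟨_, rfl⟩
  obtain ⟨q0, hq0⟩ : ∃ q0 : ℂ, q0 = d * conj d - b * conj b := ⟨_, rfl⟩
  obtain ⟨q1, hq1⟩ : ∃ q1 : ℂ, q1 = c * conj d - a * conj b := ⟨_, rfl⟩
  obtain ⟨q2, hq2⟩ : ∃ q2 : ℂ, q2 = d * conj c - b * conj a := ⟨_, rfl⟩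
  obtain ⟨q3, hq3⟩ : ∃ q3 : ℂ, q3 = c * conj c - a * conj a := ⟨_, rfl⟩
  have hN2 : ∀ x y : ℂ, ‖x‖ < 1 → ‖y‖ < 1 → q0 + q1 * x + q2 * conj y + q3 * x * conj y =
      (c * x + d) * conj (c * y + d) * (1 - conj (φ y) * φ x) := by
    intro x y hx hy
    have h1 := hφm x hx
    have h2 := congrArg conj (hφm y hy)
    simp only [map_add, map_mul] at h2
    simp only [map_add, map_mul]
    rw [hq0, hq1, hq2, hq3]
    linear_combination (conj (φ y) * (conj c * conj y + conj d)) * h1 + (a * x + b) * h2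
  have hN2ne : ∀ x y : ℂ, ‖x‖ < 1 → ‖y‖ < 1 →
      q0 + q1 * x + q2 * conj y + q3 * x * conj y ≠ 0 := by
    intro x y hx hy
    rw [hN2 x y hx hy]
    refine mul_ne_zero (mul_ne_zero (hden x hx) ?_) (hker _ _ (hφ y hy) (hφ x hx))
    rw [Ne, map_eq_zero]
    exact hden y hy
  have hrel : ∀ x y : ℂ, ‖x‖ < 1 → ‖y‖ < 1 →
      (p0 + p1 * x + p2 * conj y + p3 * x * conj y) * f x * conj (f y) =
      (q0 + q1 * x + q2 * conj y + q3 * x * conj y) * (conj (Cf x) + Cf y) := by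
    intro x y hx hy
    rw [← hmain x y hx hy, hFF x y hx hy, hN2 x y hx hy]
    have h1 : (1 - conj (φ y) * φ x) * (1 - conj (φ y) * φ x)⁻¹ = 1 :=
      mul_inv_cancel₀ (hker _ _ (hφ y hy) (hφ x hx))
    set i := (1 - conj (φ y) * φ x)⁻¹ with hi
    have h2 : p0 + p1 * x + p2 * conj y + p3 * x * conj y =
        (1 - conj (s x) * s y) * (conj (D x) * D y) := by
      have h3 := congrArg conj (hsD x hx)
      have h4 := hsD y hy
      simp only [map_mul, map_sub, Complex.conj_conj] at h3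
      have h5 : conj (D x) = conj d - x * conj b := by
        rw [hD]; simp
      have h6 : D y = d - conj y * b := rfl
      have h7 : (1 - conj (s x) * s y) * (conj (D x) * D y) =
          conj (D x) * D y - (conj (s x) * conj (D x)) * (s y * D y) := by ring
      rw [h7, h3, h4, h5, h6, hp0, hp1, hp2, hp3]
      ring
    have h8 : conj (f y) = conj (c * y + d) * conj (ψ y) := by rw [hf]; simp
    have h9 : f x = (c * x + d) * ψ x := rfl
    rw [h2, h8, h9]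
    linear_combination (-(1 - conj (s x) * s y) * (conj (D x) * D y) * ((c * x + d) * ψ x) *
      (conj (c * y + d) * conj (ψ y))) * h1
  by_cases hz : ∀ x : ℂ, ‖x‖ < 1 → f x = 0
  · refine ⟨0, fun z hz1 => ?_⟩
    rw [zero_div]
    exact (mul_eq_zero.mp (hz z hz1)).resolve_left (hden z hz1)
  push Not at hz
  obtain ⟨x0, hx0, hfx0⟩ := hz
  set T : Set ℂ := {x | ‖x‖ < 1 ∧ f x ≠ 0} with hT
  have hTinf : T.Infinite := by
    refine infinite_of_mem_nhds x0 ?_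
    have h1 : ContinuousAt (ev Ψ) x0 := ev_continuousAt Ψ hx0
    have h2 : ev Ψ x0 ≠ 0 := by rw [hevΨ x0 hx0]; exact hfx0
    have h3 := h1.eventually_ne h2
    have h4 : ∀ᶠ x in 𝓝 x0, ‖x‖ < 1 :=
      (continuous_norm.tendsto x0).eventually (Iio_mem_nhds hx0)
    filter_upwards [h3, h4] with x h5 h6
    refine ⟨h6, ?_⟩
    rw [hevΨ x h6] at h5
    exact h5
  have hqdet : q0 * q3 - q1 * q2 ≠ 0 := by
    have : q0 * q3 - q1 * q2 = -((a * d - b * c) * conj (a * d - b * c)) := by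
      rw [hq0, hq1, hq2, hq3]; simp only [map_sub, map_mul]; ring
    rw [this]
    refine neg_ne_zero.mpr (mul_ne_zero hdet ?_)
    rw [Ne, map_eq_zero]; exact hdet
  have hpdet : p0 * p3 - p1 * p2 ≠ 0 := by
    have : p0 * p3 - p1 * p2 = -((a * d - b * c) * conj (a * d - b * c)) := by
      rw [hp0, hp1, hp2, hp3]; simp only [map_sub, map_mul]; ring
    rw [this]
    refine neg_ne_zero.mpr (mul_ne_zero hdet ?_)
    rw [Ne, map_eq_zero]; exact hdet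
  obtain ⟨e1, e2, e3⟩ := minors hqdet hTinf (f := f) (g := Cf) (fun x hx => hx.2)
    (fun x hx y hy => hrel x y hx.1 hy.1)
  obtain ⟨κ, hκ, k0, k1, k2, k3⟩ := propor hqdet hpdet e1 e2 e3
    (by rw [hp0]; simp only [map_sub, map_mul, Complex.conj_conj]; ring)
    (by rw [hp1, hp2]; simp only [map_sub, map_mul, Complex.conj_conj])
    (by rw [hp3]; simp only [map_sub, map_mul, Complex.conj_conj]; ring)
    (by rw [hq0]; simp only [map_sub, map_mul, Complex.conj_conj]; ring)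
    (by rw [hq1, hq2]; simp only [map_sub, map_mul, Complex.conj_conj]; ring)
    (by rw [hq3]; simp only [map_sub, map_mul, Complex.conj_conj]; ring)
  have hrel2 : ∀ x y : ℂ, ‖x‖ < 1 → ‖y‖ < 1 → κ * (f x * conj (f y)) = conj (Cf x) + Cf y := by
    intro x y hx hy
    have h1 := hrel x y hx hy
    refine mul_left_cancel₀ (hN2ne x y hx hy) ?_
    rw [← h1, k0, k1, k2, k3]
    ring
  have hconst : ∀ x y : ℂ, ‖x‖ < 1 → ‖y‖ < 1 → f x = f y := by
    intro x y hx hy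
    have h1 := hrel2 x x hx hx
    have h2 := hrel2 x y hx hy
    have h3 := hrel2 y x hy hx
    have h4 := hrel2 y y hy hy
    have h5 : κ * ((f x - f y) * conj (f x - f y)) = 0 := by
      rw [map_sub]
      linear_combination h1 - h2 - h3 + h4
    have h6 := (mul_eq_zero.mp h5).resolve_left hκ
    rcases mul_eq_zero.mp h6 with h7 | h7
    · exact sub_eq_zero.mp h7
    · rw [map_eq_zero] at h7
      exact sub_eq_zero.mp h7
  refine ⟨f 0, fun z hz1 => ?_⟩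
  rw [hconst 0 z h0 hz1, eq_div_iff (hden z hz1), hf]
  ring

end Pool.Agent.Q320.WC
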